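import Pool.Agent.H46.EXC.Stmts

/-! # EXC XCH: choice of the known primes of one triple -/

set_option autoImplicit false

namespace Pool.EXC

open Finset Pool.Agent.H98.ABCR Pool.SHA Pool.ABY Pool.VIO

namespace H34XCH

theorem rad_pos1 (n : ℕ) : 0 < rad n :=
  prod_pos fun _ hp => (Nat.prime_of_mem_primeFactors hp).pos

theorem rad_mul1 {a b : ℕ} (h : a.Coprime b) : rad (a * b) = rad a * rad b := by
  unfold rad
  rw [h.primeFactors_mul, prod_union h.disjoint_primeFactors]

theorem RR_eq1 (v : ℕ × ℕ) (h : IsTri v) : RR v = ∏ s : Fin 3, rad (coord v s) := by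
  obtain ⟨h1, h2, h3⟩ := h
  have h4 : (v.1 * v.2).Coprime (v.1 + v.2) := by
    apply Nat.Coprime.mul_left
    · rw [Nat.coprime_self_add_right]; exact h3
    · rw [Nat.coprime_add_self_right]; exact h3.symm
  unfold RR nn
  rw [rad_mul1 h4, rad_mul1 h3, Fin.prod_univ_three]
  rfl

theorem nn_pos {v : ℕ × ℕ} (h : IsTri v) : 0 < nn v := by
  obtain ⟨h1, h2, _⟩ := h
  unfold nn
  positivity

theorem c_dvd (v : ℕ × ℕ) (s : Fin 3) : coord v s ∣ nn v := by
  unfold nn
  fin_cases s
  · exact ⟨v.2 * (v.1 + v.2), by show _ = v.1 * _; ring⟩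
  · exact ⟨v.1 * (v.1 + v.2), by show _ = v.2 * _; ring⟩
  · exact ⟨v.1 * v.2, by show _ = (v.1 + v.2) * _; ring⟩

theorem c_pos {v : ℕ × ℕ} (h : IsTri v) (s : Fin 3) : 0 < coord v s :=
  Nat.pos_of_dvd_of_pos (c_dvd v s) (nn_pos h)

theorem c_sub {v : ℕ × ℕ} (h : IsTri v) (s : Fin 3) :
    (coord v s).primeFactors ⊆ (nn v).primeFactors :=
  Nat.primeFactors_mono (c_dvd v s) (nn_pos h).ne'

theorem er : ∀ i j k : Fin 3, i ≠ j → i ≠ k → j ≠ k →
    (univ : Finset (Fin 3)).erase i = {j, k} := by decide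

theorem oth : ∀ i : Fin 3, ∃ j k : Fin 3, i ≠ j ∧ i ≠ k ∧ j ≠ k := by decide

theorem unv : ∀ i j k : Fin 3, i ≠ j → i ≠ k → j ≠ k →
    (univ : Finset (Fin 3)) = {i, j, k} := by decide

theorem term_nonneg (n q : ℕ) : 0 ≤ (n.factorization q : ℝ) * Real.log q :=
  mul_nonneg (Nat.cast_nonneg _) (Real.log_natCast_nonneg q)

theorem kl_mono {S T : Finset ℕ} (h : S ⊆ T) (n : ℕ) : kl S n ≤ kl T n :=
  sum_le_sum_of_subset_of_nonneg h fun q _ _ => term_nonneg n q

theorem kl_nonneg (S : Finset ℕ) (n : ℕ) : 0 ≤ kl S n := sum_nonneg fun q _ => term_nonneg n q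

theorem kl_log {n : ℕ} : kl n.primeFactors n = Real.log n := by
  rw [Real.log_nat_eq_sum_factorization]
  unfold kl Finsupp.sum
  rw [Nat.support_factorization]

theorem log_rad1 (n : ℕ) : Real.log (rad n) = ∑ p ∈ n.primeFactors, Real.log p := by
  unfold rad
  rw [Nat.cast_prod, Real.log_prod]
  intro p hp
  exact_mod_cast (Nat.prime_of_mem_primeFactors hp).ne_zero

/-- the primes `≤ X ^ η` of a coordinate -/
noncomputable def Sl (X η : ℝ) (v : ℕ × ℕ) (s : Fin 3) : Finset ℕ :=
  (coord v s).primeFactors.filter (fun q : ℕ => (q : ℝ) ≤ X ^ η)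

theorem lig_le (X η : ℝ) (K : Finset ℕ) (v : ℕ × ℕ) {i j k : Fin 3} (hij : i ≠ j) (hik : i ≠ k)
    (hjk : j ≠ k) : lig X η K i v ≤ kl (Sl X η v j \ K) (coord v j) +
      kl (Sl X η v k \ K) (coord v k) := by
  have h1 : ∀ s : Fin 3, (coord v s).primeFactors.filter (fun q : ℕ => q ∉ K ∧ (q : ℝ) ≤ X ^ η) ⊆
      Sl X η v s \ K := by
    intro s q hq
    rw [mem_filter] at hq
    rw [mem_sdiff, Sl, mem_filter]
    exact ⟨⟨hq.1, hq.2.2⟩, hq.2.1⟩
  unfold lig
  rw [er i j k hij hik hjk, sum_pair hjk]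
  exact add_le_add (kl_mono (h1 j) _) (kl_mono (h1 k) _)

theorem prod_union_le (A B : Finset ℕ) (hA : ∀ q ∈ A, 1 ≤ q) :
    ∏ q ∈ A ∪ B, q ≤ (∏ q ∈ A, q) * ∏ q ∈ B, q := by
  rw [← prod_union_inter]
  refine Nat.le_mul_of_pos_right _ (prod_pos fun q hq => ?_)
  exact hA q (mem_inter.1 hq).1

theorem Sl_prod (X η : ℝ) (v : ℕ × ℕ) (s : Fin 3) : ∏ q ∈ Sl X η v s, q ≤ rad (coord v s) := by
  unfold rad
  refine prod_le_prod_of_subset_of_one_le' (filter_subset _ _) fun q hq _ => ?_
  exact (Nat.prime_of_mem_primeFactors hq).one_lt.le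

/-- pigeonhole -/
theorem pig (lm : ℕ → ℝ) (h0 : ℝ) (hh0 : 0 ≤ h0) (hlm : ∀ m, 0 < lm (m + 1) ∧ lm (m + 1) ≤ lm m)
    (w : Fin 3 → ℝ) : ∃ m < 4, ∀ s, w s < lm (m + 1) * h0 ∨ lm m * h0 ≤ w s := by
  by_contra hcon
  push Not at hcon
  choose! f hf using hcon
  have hanti : Antitone lm := antitone_nat_of_succ_le fun n => (hlm n).2
  have key : ∀ a b : ℕ, a < 4 → b < 4 → a < b → f a ≠ f b := by
    intro a b ha hb hab he
    have h1 := (hf a ha).1
    have h2 := (hf b hb).2
    rw [← he] at h2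
    have h3 : lm b ≤ lm (a + 1) := hanti hab
    have h4 : lm b * h0 ≤ lm (a + 1) * h0 := mul_le_mul_of_nonneg_right h3 hh0
    linarith
  have hinj : Function.Injective (fun a : Fin 4 => f a.1) := by
    intro a b hab
    by_contra hne
    rcases lt_or_gt_of_ne (fun h => hne (Fin.ext h) : a.1 ≠ b.1) with h | h
    · exact key a.1 b.1 a.2 b.2 h hab
    · exact key b.1 a.1 b.2 a.2 h hab.symm
  have := Fintype.card_le_of_injective _ hinj
  simp at this

/-- few primes `> X ^ (ν / 2)` -/
theorem few {ν X : ℝ} (hν : 0 < ν) (hX : 3 ≤ X) {n : ℕ} (hn : (rad n : ℝ) ≤ X) :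
    ((n.primeFactors.filter (fun q : ℕ => X ^ (ν / 2) < (q : ℝ))).card : ℝ) ≤ 2 / ν := by
  have hL : 0 < Real.log X := Real.log_pos (by linarith)
  have hX0 : 0 < X := by linarith
  have h1 : ((n.primeFactors.filter (fun q : ℕ => X ^ (ν / 2) < (q : ℝ))).card : ℝ) *
      (ν / 2 * Real.log X) ≤ Real.log X := by
    calc ((n.primeFactors.filter (fun q : ℕ => X ^ (ν / 2) < (q : ℝ))).card : ℝ) *
          (ν / 2 * Real.log X)
        = ∑ q ∈ n.primeFactors.filter (fun q : ℕ => X ^ (ν / 2) < (q : ℝ)), ν / 2 * Real.log X := by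
          rw [sum_const, nsmul_eq_mul]
      _ ≤ ∑ q ∈ n.primeFactors.filter (fun q : ℕ => X ^ (ν / 2) < (q : ℝ)), Real.log q := by
          refine sum_le_sum fun q hq => ?_
          rw [mem_filter] at hq
          rw [← Real.log_rpow hX0]
          exact Real.log_le_log (Real.rpow_pos_of_pos hX0 _) hq.2.le
      _ ≤ ∑ q ∈ n.primeFactors, Real.log q :=
          sum_le_sum_of_subset_of_nonneg (filter_subset _ _)
            fun q _ _ => Real.log_natCast_nonneg q
      _ = Real.log (rad n) := (log_rad1 n).symm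
      _ ≤ Real.log X := Real.log_le_log (by exact_mod_cast rad_pos1 n) hn
  rw [le_div_iff₀ hν]
  have h2 : ((n.primeFactors.filter (fun q : ℕ => X ^ (ν / 2) < (q : ℝ))).card : ℝ) * (ν / 2) *
      Real.log X ≤ 1 * Real.log X := by linarith
  have h3 := le_of_mul_le_mul_right h2 hL
  linarith

/-- heavy primes -/
noncomputable def Hs (X ν c : ℝ) (n : ℕ) : Finset ℕ :=
  n.primeFactors.filter (fun q : ℕ => X ^ (ν / 2) < (q : ℝ) ∧
    c ≤ (n.factorization q : ℝ) * Real.log q)

theorem dec {ν X c : ℝ} (hν : 0 < ν) (hX : 3 ≤ X) (hc : 0 ≤ c) {n : ℕ}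
    (hn : (rad n : ℝ) ≤ X) :
    Real.log n ≤ kl (n.primeFactors.filter (fun q : ℕ => (q : ℝ) ≤ X ^ (ν / 2))) n + 2 / ν * c +
      kl (Hs X ν c n) n := by
  rw [← kl_log]
  set A := n.primeFactors.filter (fun q : ℕ => (q : ℝ) ≤ X ^ (ν / 2)) with hA
  set B := n.primeFactors.filter (fun q : ℕ => X ^ (ν / 2) < (q : ℝ)) with hB
  have h1 : kl n.primeFactors n = kl A n + kl B n := by
    unfold kl
    rw [← sum_filter_add_sum_filter_not n.primeFactors (fun q : ℕ => (q : ℝ) ≤ X ^ (ν / 2))]
    congr 1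
    refine sum_congr ?_ fun _ _ => rfl
    ext q
    simp only [hB, mem_filter, not_le]
  have h2 : kl B n ≤ 2 / ν * c + kl (Hs X ν c n) n := by
    have e1 : kl B n = kl (B.filter (fun q : ℕ => c ≤ (n.factorization q : ℝ) * Real.log q)) n +
        kl (B.filter (fun q : ℕ => ¬ c ≤ (n.factorization q : ℝ) * Real.log q)) n := by
      unfold kl
      rw [sum_filter_add_sum_filter_not]
    have e2 : kl (B.filter (fun q : ℕ => c ≤ (n.factorization q : ℝ) * Real.log q)) n ≤
        kl (Hs X ν c n) n := by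
      refine kl_mono (fun q hq => ?_) n
      simp only [hB, mem_filter] at hq
      rw [Hs, mem_filter]
      exact ⟨hq.1.1, hq.1.2, hq.2⟩
    have e3 : kl (B.filter (fun q : ℕ => ¬ c ≤ (n.factorization q : ℝ) * Real.log q)) n ≤
        2 / ν * c := by
      calc kl (B.filter (fun q : ℕ => ¬ c ≤ (n.factorization q : ℝ) * Real.log q)) n
          ≤ ∑ q ∈ B.filter (fun q : ℕ => ¬ c ≤ (n.factorization q : ℝ) * Real.log q), c := by
            refine sum_le_sum fun q hq => ?_
            rw [mem_filter] at hq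
            exact (not_le.1 hq.2).le
        _ ≤ ∑ q ∈ B, c := sum_le_sum_of_subset_of_nonneg (filter_subset _ _) fun _ _ _ => hc
        _ = (B.card : ℝ) * c := by rw [sum_const, nsmul_eq_mul]
        _ ≤ 2 / ν * c := mul_le_mul_of_nonneg_right (few hν hX hn) hc
    linarith
  linarith

/-- at most two heavy primes -/
theorem two {X : ℝ} (hX : 3 ≤ X) {v : ℕ × ℕ} (hv : IsTri v) (hR : (RR v : ℝ) ≤ X)
    (P : Fin 3 → Finset ℕ) (hP : ∀ s, P s ⊆ (coord v s).primeFactors)
    (hb : ∀ s, ∀ q ∈ P s, X ^ (1 / 3 : ℝ) < (q : ℝ)) : ∑ s, (P s).card ≤ 2 := by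
  have hL : 0 < Real.log X := Real.log_pos (by linarith)
  have hX0 : 0 < X := by linarith
  by_contra hcon
  push Not at hcon
  have hne : ∃ s, (P s).Nonempty := by
    by_contra hno
    push Not at hno
    have : ∑ s, (P s).card = 0 := sum_eq_zero fun s _ => by
      rw [hno s]; exact card_empty
    omega
  have h1 : ∑ s, ((P s).card : ℝ) * (1 / 3 * Real.log X) < ∑ s, ∑ q ∈ P s, Real.log q := by
    obtain ⟨s0, hs0⟩ := hne
    have hle : ∀ s, ∀ q ∈ P s, 1 / 3 * Real.log X < Real.log q := by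
      intro s q hq
      rw [← Real.log_rpow hX0]
      exact Real.log_lt_log (Real.rpow_pos_of_pos hX0 _) (hb s q hq)
    refine sum_lt_sum (fun s _ => ?_) ⟨s0, mem_univ _, ?_⟩
    · rw [← nsmul_eq_mul, ← sum_const]
      exact sum_le_sum fun q hq => (hle s q hq).le
    · rw [← nsmul_eq_mul, ← sum_const]
      exact sum_lt_sum_of_nonempty hs0 fun q hq => hle s0 q hq
  have h2 : ∑ s, ∑ q ∈ P s, Real.log q ≤ Real.log X := by
    calc ∑ s, ∑ q ∈ P s, Real.log q ≤ ∑ s, ∑ q ∈ (coord v s).primeFactors, Real.log q :=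
          sum_le_sum fun s _ => sum_le_sum_of_subset_of_nonneg (hP s)
            fun q _ _ => Real.log_natCast_nonneg q
      _ = ∑ s, Real.log (rad (coord v s)) := sum_congr rfl fun s _ => (log_rad1 _).symm
      _ = Real.log (RR v) := by
          rw [RR_eq1 v hv, Nat.cast_prod, Real.log_prod]
          intro s _
          exact_mod_cast (rad_pos1 _).ne'
      _ ≤ Real.log X := Real.log_le_log (by exact_mod_cast rad_pos1 _) hR
  have h3 : (3 : ℝ) ≤ ∑ s, ((P s).card : ℝ) := by exact_mod_cast hcon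
  rw [← sum_mul] at h1
  have h4 : (3 : ℝ) * (1 / 3 * Real.log X) ≤ (∑ s, ((P s).card : ℝ)) * (1 / 3 * Real.log X) :=
    mul_le_mul_of_nonneg_right h3 (by positivity)
  linarith

end H34XCH

open H34XCH

theorem xch_thm (hRCT : S_RCT) : S_XCH := by
  intro ν cH l lm hν hν1 hcH hlm hl hl4 X h0 v hX hh4 hv hR hlo hup
  have hX0 : 0 < X := by linarith
  have hX1 : 1 ≤ X := by linarith
  have hh0 : 0 < h0 := by linarith
  set r : Fin 3 → ℝ := fun s => (rad (coord v s) : ℝ) with hr
  have hr1 : ∀ s, 1 ≤ r s := fun s => by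
    have := rad_pos1 (coord v s)
    simp only [hr]
    exact_mod_cast this
  have hrp : ∏ s, r s ≤ X := by
    rw [RR_eq1 v hv, Nat.cast_prod] at hR
    exact hR
  have hrX : ∀ s, r s ≤ X := by
    intro s
    obtain ⟨j, k, hij, hik, hjk⟩ := oth s
    rw [unv s j k hij hik hjk, prod_insert (by simp [hij, hik]), prod_pair hjk] at hrp
    have h1 : 1 ≤ r j * r k := one_le_mul_of_one_le_of_one_le (hr1 j) (hr1 k)
    have h2 : r s * 1 ≤ r s * (r j * r k) := mul_le_mul_of_nonneg_left h1 (by linarith [hr1 s])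
    linarith
  set S : Fin 3 → Finset ℕ := fun s => Sl X (ν / 2) v s with hS
  have hSsub : ∀ s, S s ⊆ (coord v s).primeFactors := fun s => filter_subset _ _
  have hSle : ∀ s, ∀ q ∈ S s, (q : ℝ) ≤ X ^ (ν / 2) := fun s q hq => (mem_filter.1 hq).2
  set w : Fin 3 → ℝ := fun s => kl (S s) (coord v s) with hw
  have hanti : Antitone lm := antitone_nat_of_succ_le fun n => (hlm n).2
  have hT : ∀ s, ∃ T ⊆ S s, ((∏ q ∈ T, q : ℕ) : ℝ) ≤ X ^ ν ∧
      ν / 2 * w s ≤ kl T (coord v s) := fun s =>
    hRCT ν X (coord v s) (S s) hν hν1 hX (c_pos hv s) (hrX s) (hSsub s) (hSle s)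
  choose T hTS hTX hTw using hT
  obtain ⟨m, hm4, hm⟩ := pig lm h0 hh0.le hlm w
  have hligle : ∀ K : Finset ℕ, ∀ i j k : Fin 3, i ≠ j → i ≠ k → j ≠ k →
      lig X (ν / 2) K i v ≤ w j + w k := by
    intro K i j k hij hik hjk
    refine (lig_le X (ν / 2) K v hij hik hjk).trans ?_
    exact add_le_add (kl_mono sdiff_subset _) (kl_mono sdiff_subset _)
  -- alternative A
  have hA : ∀ i, lm m * h0 ≤ w i → ∏ s ∈ univ.erase i, r s ≤ X ^ (2 / 3 : ℝ) →
      (∃ m < 4, ∃ (i : Fin 3), ∃ T ⊆ (coord v i).primeFactors,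
      ((∏ q ∈ T, q : ℕ) : ℝ) ≤ X ^ ν ∧ ν / 2 * lm m * h0 ≤ kl T (coord v i) ∧
      ∏ s ∈ univ.erase i, (rad (coord v s) : ℝ) ≤ X ^ (2 / 3 : ℝ)) := by
    intro i hi hp
    refine ⟨m, hm4, i, T i, (hTS i).trans (hSsub i), hTX i, ?_, hp⟩
    have h1 : ν / 2 * (lm m * h0) ≤ ν / 2 * w i := mul_le_mul_of_nonneg_left hi (by linarith)
    have h2 := hTw i
    linarith
  have hwt : ∀ i, lm m * h0 ≤ w i → ∀ K, T i ⊆ K → ν / 2 * lm m * h0 ≤ kl K (coord v i) := by
    intro i hi K hK
    have h1 : ν / 2 * (lm m * h0) ≤ ν / 2 * w i := mul_le_mul_of_nonneg_left hi (by linarith)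
    have h2 := hTw i
    have h3 := kl_mono hK (coord v i)
    linarith
  have hlm1 : 0 ≤ lm (m + 1) * h0 := mul_nonneg (hlm m).1.le hh0.le
  by_cases hRne : ∃ i, lm m * h0 ≤ w i
  · by_cases hbig : ∃ i, lm m * h0 ≤ w i ∧ X ^ (1 / 3 : ℝ) ≤ r i
    · obtain ⟨i, hi, hri⟩ := hbig
      left
      refine hA i hi ?_
      have h1 : r i * ∏ s ∈ univ.erase i, r s = ∏ s, r s := mul_prod_erase univ r (mem_univ i)
      have h2 : X ^ (1 / 3 : ℝ) * X ^ (2 / 3 : ℝ) = X := by
        rw [← Real.rpow_add hX0]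
        norm_num
      have h3 : 0 ≤ ∏ s ∈ univ.erase i, r s := prod_nonneg fun s _ => by linarith [hr1 s]
      have h4 : X ^ (1 / 3 : ℝ) * ∏ s ∈ univ.erase i, r s ≤ X ^ (1 / 3 : ℝ) * X ^ (2 / 3 : ℝ) := by
        rw [h2]
        exact ((mul_le_mul_of_nonneg_right hri h3).trans_eq h1).trans hrp
      exact le_of_mul_le_mul_left h4 (Real.rpow_pos_of_pos hX0 _)
    · push Not at hbig
      obtain ⟨i, hi⟩ := hRne
      obtain ⟨j, k, hij, hik, hjk⟩ := oth i
      -- one more heavy coordinate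
      have hB : ∀ j k : Fin 3, i ≠ j → i ≠ k → j ≠ k → lm m * h0 ≤ w j → w k < lm (m + 1) * h0 →
          (∃ m < 4, ∃ (i : Fin 3), ∃ K ⊆ (nn v).primeFactors,
          ((∏ q ∈ K, q : ℕ) : ℝ) ≤ X ^ (1 / 3 + ν) ∧ ν / 2 * lm m * h0 ≤ kl K (coord v i) ∧
          lig X (ν / 2) K i v ≤ 2 * lm (m + 1) * h0) := by
        intro j k hij hik hjk hj hk
        refine ⟨m, hm4, i, T i ∪ S j, union_subset (((hTS i).trans (hSsub i)).trans (c_sub hv i))
          ((hSsub j).trans (c_sub hv j)), ?_, hwt i hi _ subset_union_left, ?_⟩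
        · have h1 : ∏ q ∈ T i ∪ S j, q ≤ (∏ q ∈ T i, q) * ∏ q ∈ S j, q :=
            prod_union_le _ _ fun q hq =>
              (Nat.prime_of_mem_primeFactors (hSsub i (hTS i hq))).one_lt.le
          have h2 : ∏ q ∈ S j, q ≤ rad (coord v j) := Sl_prod X (ν / 2) v j
          have h3 : ((∏ q ∈ T i ∪ S j, q : ℕ) : ℝ) ≤ ((∏ q ∈ T i, q : ℕ) : ℝ) * r j := by
            have := h1.trans (Nat.mul_le_mul_left _ h2)
            simp only [hr]
            exact_mod_cast this
          refine h3.trans ?_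
          rw [add_comm, Real.rpow_add hX0]
          exact mul_le_mul (hTX i) (hbig j hj).le (by linarith [hr1 j])
            (Real.rpow_nonneg hX0.le _)
        · have h1 := lig_le X (ν / 2) (T i ∪ S j) v hij hik hjk
          have h2 : Sl X (ν / 2) v j \ (T i ∪ S j) = ∅ :=
            sdiff_eq_empty_iff_subset.2 subset_union_right
          have h3 : kl (Sl X (ν / 2) v k \ (T i ∪ S j)) (coord v k) ≤ w k :=
            kl_mono sdiff_subset _
          rw [h2] at h1
          have h4 : kl ∅ (coord v j) = 0 := sum_empty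
          linarith
      rcases hm j with hj | hj
      · rcases hm k with hk | hk
        · right; left
          refine ⟨m, hm4, i, T i, ((hTS i).trans (hSsub i)).trans (c_sub hv i), ?_,
            hwt i hi _ (Subset.refl _), ?_⟩
          · refine (hTX i).trans (Real.rpow_le_rpow_of_exponent_le hX1 (by linarith))
          · have := hligle (T i) i j k hij hik hjk
            linarith
        · right; left
          exact hB k j hik hij hjk.symm hk hj
      · rcases hm k with hk | hk
        · right; left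
          exact hB j k hij hik hjk hj hk
        · left
          refine hA i hi ?_
          rw [er i j k hij hik hjk, prod_pair hjk]
          have h1 : X ^ (2 / 3 : ℝ) = X ^ (1 / 3 : ℝ) * X ^ (1 / 3 : ℝ) := by
            rw [← Real.rpow_add hX0]
            norm_num
          rw [h1]
          exact mul_le_mul (hbig j hj).le (hbig k hk).le (by linarith [hr1 k])
            (Real.rpow_nonneg hX0.le _)
  · push Not at hRne
    have hw0 : ∀ s, w s ≤ lm 0 * h0 := by
      intro s
      have h1 : lm m * h0 ≤ lm 0 * h0 := mul_le_mul_of_nonneg_right (hanti (Nat.zero_le m)) hh0.le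
      linarith [hRne s]
    by_cases hC : ∃ (i : Fin 3), ∃ p ∈ (coord v i).primeFactors, (p : ℝ) ≤ X ^ (1 / 3 : ℝ) ∧
        cH * h0 ≤ ((coord v i).factorization p : ℝ) * Real.log p
    · right; right; left
      obtain ⟨i, p, hp, hpX, hpw⟩ := hC
      obtain ⟨j, k, hij, hik, hjk⟩ := oth i
      refine ⟨i, p, hp, hpX, hpw, ?_⟩
      have h1 := hligle {p} i j k hij hik hjk
      have h2 := hw0 j
      have h3 := hw0 k
      linarith
    · push Not at hC
      right; right; right
      set P : Fin 3 → Finset ℕ := fun s => Hs X ν (cH * h0) (coord v s) with hP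
      have hPsub : ∀ s, P s ⊆ (coord v s).primeFactors := fun s => filter_subset _ _
      have hPb : ∀ s, ∀ q ∈ P s, X ^ (1 / 3 : ℝ) < (q : ℝ) := by
        intro s q hq
        have h1 := mem_filter.1 hq
        by_contra hle
        have h2 := hC s q h1.1 (not_lt.1 hle)
        linarith [h1.2.2]
      have h2 := two hX hv hR P hPsub hPb
      have hdec : ∀ s, Real.log (coord v s) ≤ l * h0 + kl (P s) (coord v s) := by
        intro s
        have h3 := dec hν hX (mul_nonneg hcH.le hh0.le) (hrX s)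
        have h4 := hw0 s
        have h5 : (2 * cH / ν + lm 0) * h0 ≤ l * h0 := mul_le_mul_of_nonneg_right hl hh0.le
        have h6 : 2 / ν * (cH * h0) = 2 * cH / ν * h0 := by ring
        have h7 : kl ((coord v s).primeFactors.filter (fun q : ℕ => (q : ℝ) ≤ X ^ (ν / 2)))
          (coord v s) = w s := rfl
        rw [h7, h6] at h3
        have h8 : (2 * cH / ν + lm 0) * h0 = 2 * cH / ν * h0 + lm 0 * h0 := by ring
        have h9 : kl (Hs X ν (cH * h0) (coord v s)) (coord v s) = kl (P s) (coord v s) := rfl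
        linarith
      have hlh : l * h0 ≤ 1 / 4 * h0 := mul_le_mul_of_nonneg_right hl4 hh0.le
      have hne : ∀ s, l * h0 < Real.log (coord v s) → 1 ≤ (P s).card := by
        intro s hs
        rw [Nat.one_le_iff_ne_zero]
        intro h0'
        rw [card_eq_zero] at h0'
        have h3 := hdec s
        rw [h0'] at h3
        have h4 : kl ∅ (coord v s) = 0 := sum_empty
        linarith
      have hc2 : l * h0 < Real.log (coord v 2) := by
        have h3 : Real.log (coord v 2) = hh v := rfl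
        linarith
      have hlog2 : Real.log 2 < 1 := by
        have := Real.log_two_lt_d9
        linarith
      -- the larger of the two summands
      have hmain : ∀ a b : Fin 3, a ≠ b → a ≠ 2 → b ≠ 2 →
          coord v 2 ≤ 2 * coord v a → ∃ i j k : Fin 3, i ≠ j ∧ i ≠ k ∧ j ≠ k ∧
          Real.log (coord v i) ≤ l * h0 ∧
          (∃ p ∈ (coord v j).primeFactors, X ^ (1 / 4 : ℝ) < p ∧
            Real.log (coord v j) - l * h0 ≤ ((coord v j).factorization p : ℝ) * Real.log p) ∧
          ∃ p ∈ (coord v k).primeFactors, X ^ (1 / 4 : ℝ) < p ∧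
            Real.log (coord v k) - l * h0 ≤ ((coord v k).factorization p : ℝ) * Real.log p := by
        intro a b hab ha2 hb2 hle
        have h3 : Real.log (coord v 2) ≤ Real.log 2 + Real.log (coord v a) := by
          rw [← Real.log_mul (by norm_num) (by exact_mod_cast (c_pos hv a).ne')]
          refine Real.log_le_log (by exact_mod_cast c_pos hv 2) ?_
          exact_mod_cast hle
        have h4 : Real.log (coord v 2) = hh v := rfl
        have hca : l * h0 < Real.log (coord v a) := by linarith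
        have h5 := hne a hca
        have h6 := hne 2 hc2
        rw [unv b a 2 hab.symm hb2 ha2, sum_insert (by simp [hab.symm, hb2]), sum_pair ha2] at h2
        have h7 : (P b).card = 0 := by omega
        have h8 : (P a).card = 1 := by omega
        have h9 : (P 2).card = 1 := by omega
        have hone : ∀ s, (P s).card = 1 → ∃ p ∈ (coord v s).primeFactors, X ^ (1 / 4 : ℝ) < p ∧
            Real.log (coord v s) - l * h0 ≤
              ((coord v s).factorization p : ℝ) * Real.log p := by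
          intro s hs
          obtain ⟨p, hp⟩ := card_eq_one.1 hs
          have hpP : p ∈ P s := by rw [hp]; exact mem_singleton_self p
          refine ⟨p, hPsub s hpP, ?_, ?_⟩
          · refine lt_of_le_of_lt ?_ (hPb s p hpP)
            exact Real.rpow_le_rpow_of_exponent_le hX1 (by norm_num)
          · have h10 := hdec s
            rw [hp] at h10
            have h11 : kl {p} (coord v s) = ((coord v s).factorization p : ℝ) * Real.log p :=
              sum_singleton _ _
            linarith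
        refine ⟨b, a, 2, hab.symm, hb2, ha2, ?_, hone a h8, hone 2 h9⟩
        have h10 := hdec b
        rw [card_eq_zero.1 h7] at h10
        have h11 : kl ∅ (coord v b) = 0 := sum_empty
        linarith
      have e0 : coord v 0 = v.1 := rfl
      have e1 : coord v 1 = v.2 := rfl
      have e2 : coord v 2 = v.1 + v.2 := rfl
      rcases le_total v.1 v.2 with h | h
      · exact hmain 1 0 (by decide) (by decide) (by decide) (by rw [e1, e2]; omega)
      · exact hmain 0 1 (by decide) (by decide) (by decide) (by rw [e0, e2]; omega)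

end Pool.EXC
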